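import Pool.Agent.Helper88.QT.St1
import Pool.Agent.Helper85.QT.St1

/-! # Project QT: in the tube the generator is close to a scalar (ZTB) -/

set_option autoImplicit false

open MeasureTheory Matrix Set Topology
open scoped ENNReal ComplexConjugate

namespace Pool.Agent.Helper41.QT

open Pool.Agent.Helper88.QT Pool.Agent.Helper85.QT Pool.Agent.Helper86.QA
open Pool.Agent.Helper35.PM (hs)

/-- Conjugation of a diagonal matrix by `gx y`. -/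
private theorem ztbConj (y : Pt) (hy : y ∈ up) (D : SL) (h01 : D 0 1 = 0) (h10 : D 1 0 = 0) :
    (((gx y hy)⁻¹ * D * gx y hy : SL) : Mat) =
      !![D 0 0, (D 0 0 - D 1 1) * y.1 / (y.2 : ℂ); 0, D 1 1] := by
  have hy0 : 0 < y.2 := hy
  have hs0 : ((Real.sqrt y.2 : ℝ) : ℂ) ≠ 0 := by
    exact_mod_cast (Real.sqrt_pos.mpr hy0).ne'
  have hs2 : ((Real.sqrt y.2 : ℝ) : ℂ) * ((Real.sqrt y.2 : ℝ) : ℂ) = (y.2 : ℂ) := by
    exact_mod_cast Real.mul_self_sqrt hy0.le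
  have hg : ((gx y hy : SL) : Mat) = !![((Real.sqrt y.2 : ℝ) : ℂ),
      y.1 / ((Real.sqrt y.2 : ℝ) : ℂ); 0, 1 / ((Real.sqrt y.2 : ℝ) : ℂ)] := rfl
  have hD : (D : Mat) = !![D 0 0, 0; 0, D 1 1] := by
    ext i j
    fin_cases i <;> fin_cases j
    · rfl
    · exact h01
    · exact h10
    · rfl
  have key : (D : Mat) * ((gx y hy : SL) : Mat) = ((gx y hy : SL) : Mat) *
      !![D 0 0, (D 0 0 - D 1 1) * y.1 / (y.2 : ℂ); 0, D 1 1] := by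
    rw [hg, ← hs2]
    conv_lhs => rw [hD]
    ext i j
    fin_cases i <;> fin_cases j <;>
      simp only [Matrix.mul_apply, Fin.sum_univ_two, Matrix.of_apply, Matrix.cons_val',
        Matrix.cons_val_zero, Matrix.cons_val_one, Matrix.cons_val_fin_one, Fin.zero_eta,
        Fin.mk_one, Fin.isValue] <;> field_simp <;> ring
  rw [Matrix.SpecialLinearGroup.coe_mul, Matrix.SpecialLinearGroup.coe_mul, Matrix.mul_assoc, key,
    ← Matrix.mul_assoc, ← Matrix.SpecialLinearGroup.coe_mul, inv_mul_cancel,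
    Matrix.SpecialLinearGroup.coe_one, Matrix.one_mul]

private theorem ztbBase (lam : ℂ) (D : SL) (h01 : D 0 1 = 0) (h10 : D 1 0 = 0)
    (h00 : D 0 0 = Complex.exp lam * D 1 1) (hlam : lam ≠ 0) :
    ∃ ε : ℂ, (ε = 1 ∨ ε = -1) ∧ ∀ (y : Pt) (hy : y ∈ up), 12 ≤ TT lam y →
      nn ((((gx y hy)⁻¹ * D * gx y hy : SL) : Mat) - ε • (1 : Mat)) ≤ 1 / 10 := by
  have hdet : D 0 0 * D 1 1 = 1 := by
    have h := D.det_coe
    rw [Matrix.det_fin_two] at h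
    have h' : D 0 0 * D 1 1 - D 0 1 * D 1 0 = 1 := h
    rw [h01, zero_mul, sub_zero] at h'
    exact h'
  obtain ⟨w, hw⟩ : ∃ w, w = Complex.exp (lam / 2) := ⟨_, rfl⟩
  obtain ⟨v, hv⟩ : ∃ v, v = Complex.exp (-(lam / 2)) := ⟨_, rfl⟩
  have hwv : w * v = 1 := by
    rw [hw, hv, ← Complex.exp_add, add_neg_cancel, Complex.exp_zero]
  have hww : w * w = Complex.exp lam := by
    rw [hw, ← Complex.exp_add, add_halves]
  have hsq : (D 0 0 - w) * (D 0 0 + w) = 0 := by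
    have : D 0 0 * D 0 0 = Complex.exp lam := by
      calc D 0 0 * D 0 0 = Complex.exp lam * (D 0 0 * D 1 1) := by rw [h00]; ring
        _ = Complex.exp lam := by rw [hdet, mul_one]
    linear_combination this - hww
  obtain ⟨ε, hε, he0, he1⟩ : ∃ ε : ℂ, (ε = 1 ∨ ε = -1) ∧ D 0 0 = ε * w ∧ D 1 1 = ε * v := by
    have hw0 : w ≠ 0 := by
      rw [hw]
      exact Complex.exp_ne_zero _
    rcases mul_eq_zero.1 hsq with h | h
    · refine ⟨1, Or.inl rfl, by linear_combination h, ?_⟩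
      have h1 : D 0 0 = w := by linear_combination h
      rw [h1] at hdet
      apply mul_left_cancel₀ hw0
      linear_combination hdet - hwv
    · refine ⟨-1, Or.inr rfl, by linear_combination h, ?_⟩
      have h1 : D 0 0 = -w := by linear_combination h
      rw [h1] at hdet
      apply mul_left_cancel₀ hw0
      linear_combination -hdet + hwv
  have hεn : ‖ε‖ = 1 := by
    rcases hε with rfl | rfl <;> simp
  refine ⟨ε, hε, ?_⟩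
  intro y hy hT
  have hy0 : 0 < y.2 := hy
  have hl0 : 0 < ‖lam‖ := norm_pos_iff.2 hlam
  have hN : 0 < NN y := by
    unfold NN
    positivity
  have hN0 : 0 < Real.sqrt (NN y) := Real.sqrt_pos.2 hN
  unfold TT at hT
  rw [le_div_iff₀ (by positivity)] at hT
  have hNsq : Real.sqrt (NN y) ^ 2 = ‖y.1‖ ^ 2 + y.2 ^ 2 := Real.sq_sqrt hN.le
  have hle : y.2 ≤ Real.sqrt (NN y) := by
    apply Real.le_sqrt_of_sq_le
    unfold NN
    nlinarith [sq_nonneg ‖y.1‖]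
  have hlam1 : ‖lam‖ ≤ 1 / 12 := by
    have h1 : 12 * (‖lam‖ * y.2) ≤ y.2 :=
      le_trans (by gcongr) hT
    have h2 : (12 * ‖lam‖) * y.2 ≤ 1 * y.2 := by linarith
    have h3 := le_of_mul_le_mul_right h2 hy0
    linarith
  have hl2 : ‖lam / 2‖ = ‖lam‖ / 2 := by
    rw [norm_div]
    norm_num
  have hw2 : ‖w - 1 - lam / 2‖ ≤ (‖lam‖ / 2) ^ 2 := by
    rw [hw, ← hl2]
    exact Complex.norm_exp_sub_one_sub_id_le (by rw [hl2]; linarith)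
  have hv2 : ‖v - 1 + lam / 2‖ ≤ (‖lam‖ / 2) ^ 2 := by
    have h1 := Complex.norm_exp_sub_one_sub_id_le (x := -(lam / 2))
      (by rw [norm_neg, hl2]; linarith)
    rw [norm_neg, hl2, ← hv, sub_neg_eq_add] at h1
    exact h1
  have hw1 : ‖w - 1‖ ≤ 25 / 24 * (‖lam‖ / 2) := by
    calc ‖w - 1‖ = ‖(w - 1 - lam / 2) + lam / 2‖ := by rw [sub_add_cancel]
      _ ≤ ‖w - 1 - lam / 2‖ + ‖lam / 2‖ := norm_add_le _ _
      _ ≤ (‖lam‖ / 2) ^ 2 + ‖lam‖ / 2 := by rw [hl2]; linarith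
      _ ≤ 25 / 24 * (‖lam‖ / 2) := by nlinarith
  have hv1 : ‖v - 1‖ ≤ 25 / 24 * (‖lam‖ / 2) := by
    calc ‖v - 1‖ = ‖(v - 1 + lam / 2) - lam / 2‖ := by rw [add_sub_cancel_right]
      _ ≤ ‖v - 1 + lam / 2‖ + ‖lam / 2‖ := norm_sub_le _ _
      _ ≤ (‖lam‖ / 2) ^ 2 + ‖lam‖ / 2 := by rw [hl2]; linarith
      _ ≤ 25 / 24 * (‖lam‖ / 2) := by nlinarith
  have hwv1 : ‖w - v‖ ≤ 25 / 24 * ‖lam‖ := by
    calc ‖w - v‖ = ‖((w - 1 - lam / 2) - (v - 1 + lam / 2)) + lam‖ := by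
          congr 1
          ring
      _ ≤ ‖(w - 1 - lam / 2) - (v - 1 + lam / 2)‖ + ‖lam‖ := norm_add_le _ _
      _ ≤ (‖w - 1 - lam / 2‖ + ‖v - 1 + lam / 2‖) + ‖lam‖ := by
          gcongr
          exact norm_sub_le _ _
      _ ≤ ((‖lam‖ / 2) ^ 2 + (‖lam‖ / 2) ^ 2) + ‖lam‖ := by gcongr
      _ ≤ 25 / 24 * ‖lam‖ := by nlinarith
  unfold nn
  rw [Real.sqrt_le_left (by norm_num)]
  rw [ztbConj y hy D h01 h10]
  unfold hs
  simp only [Fin.sum_univ_two, Matrix.sub_apply, Matrix.smul_apply, Matrix.one_apply,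
    Matrix.of_apply, Matrix.cons_val', Matrix.cons_val_zero, Matrix.cons_val_one,
    Matrix.cons_val_fin_one, smul_eq_mul, Fin.isValue, if_true]
  have z01 : ¬ ((0 : Fin 2) = 1) := by decide
  have z10 : ¬ ((1 : Fin 2) = 0) := by decide
  rw [if_neg z01, if_neg z10, mul_zero, mul_one, sub_zero, sub_zero, norm_zero, he0, he1]
  have n1 : ‖ε * w - ε‖ = ‖w - 1‖ := by
    rw [← mul_sub_one, norm_mul, hεn, one_mul]
  have n2 : ‖ε * v - ε‖ = ‖v - 1‖ := by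
    rw [← mul_sub_one, norm_mul, hεn, one_mul]
  have n3 : ‖(ε * w - ε * v) * y.1 / (y.2 : ℂ)‖ = ‖w - v‖ * ‖y.1‖ / y.2 := by
    rw [norm_div, norm_mul, ← mul_sub, norm_mul, hεn, one_mul, Complex.norm_real,
      Real.norm_eq_abs, abs_of_pos hy0]
  rw [n1, n2, n3]
  have hT2 : (12 * (‖lam‖ * Real.sqrt (NN y))) ^ 2 ≤ y.2 ^ 2 :=
    pow_le_pow_left₀ (by positivity) hT 2
  have hT3 : 144 * ‖lam‖ ^ 2 * (‖y.1‖ ^ 2 + y.2 ^ 2) ≤ y.2 ^ 2 := by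
    rw [← hNsq]
    linarith
  have b1 : ‖w - 1‖ ^ 2 ≤ (25 / 24 * (‖lam‖ / 2)) ^ 2 := pow_le_pow_left₀ (norm_nonneg _) hw1 2
  have b2 : ‖v - 1‖ ^ 2 ≤ (25 / 24 * (‖lam‖ / 2)) ^ 2 := pow_le_pow_left₀ (norm_nonneg _) hv1 2
  have b3 : (‖w - v‖ * ‖y.1‖ / y.2) ^ 2 ≤ (25 / 24 * ‖lam‖ * ‖y.1‖ / y.2) ^ 2 := by
    apply pow_le_pow_left₀ (by positivity)
    gcongr
  have b4 : (25 / 24 * ‖lam‖ * ‖y.1‖ / y.2) ^ 2 * y.2 ^ 2 = (25 / 24) ^ 2 * ‖lam‖ ^ 2 * ‖y.1‖ ^ 2 := by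
    field_simp
  have hy2 : 0 < y.2 ^ 2 := by positivity
  have b5 : ((25 / 24 * (‖lam‖ / 2)) ^ 2 + (25 / 24 * ‖lam‖ * ‖y.1‖ / y.2) ^ 2 +
      (25 / 24 * (‖lam‖ / 2)) ^ 2) * y.2 ^ 2 ≤ (1 / 10) ^ 2 * y.2 ^ 2 := by
    have e1 : ((25 / 24 * (‖lam‖ / 2)) ^ 2 + (25 / 24 * ‖lam‖ * ‖y.1‖ / y.2) ^ 2 +
      (25 / 24 * (‖lam‖ / 2)) ^ 2) * y.2 ^ 2 = (25 / 24) ^ 2 / 2 * ‖lam‖ ^ 2 * y.2 ^ 2 +
        (25 / 24) ^ 2 * ‖lam‖ ^ 2 * ‖y.1‖ ^ 2 := by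
      rw [add_mul, add_mul, b4]
      ring
    rw [e1]
    nlinarith [mul_nonneg (sq_nonneg ‖lam‖) hy2.le, mul_nonneg (sq_nonneg ‖lam‖) (sq_nonneg ‖y.1‖)]
  have b6 := le_of_mul_le_mul_right b5 hy2
  linarith

theorem hZTB (hACT : StACT) (hNNS : StNNS) : StZTB := by
  intro lam D hre h01 h10 h00 x hx h hT
  obtain ⟨hA1, hA2, hA3, -, hA5, -⟩ := hACT
  have hlam : lam ≠ 0 := by
    rintro rfl
    simp at hre
  obtain ⟨ε, hε, hb⟩ := ztbBase lam D h01 h10 h00 hlam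
  refine ⟨ε, hε, ?_⟩
  have hy : ga h⁻¹ x ∈ up := (hA1 h⁻¹ x hx).2.1
  obtain ⟨y, hyd⟩ : ∃ y, y = ga h⁻¹ x := ⟨_, rfl⟩
  have hy' : y ∈ up := by rw [hyd]; exact hy
  have hT' : 12 ≤ TT lam y := by rw [hyd]; exact hT
  have hoo : (oo : Pt) ∈ up := by
    show (0 : ℝ) < 1
    exact one_pos
  have hgx : ∀ (z : Pt) (hz : z ∈ up), ga (gx z hz) oo = z := by
    intro z hz
    rw [hA5 z hz oo]
    unfold oo
    simp
  obtain ⟨k, hk⟩ : ∃ k : SL, k = (gx y hy')⁻¹ * (h⁻¹ * gx x hx) := ⟨_, rfl⟩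
  have hkoo : ga k oo = oo := by
    rw [hk, hA2 _ _ _ hoo, hA2 _ _ _ hoo, hgx x hx, ← hyd]
    have h1 : ga (gx y hy')⁻¹ (ga (gx y hy') oo) = oo := by
      rw [← hA2 _ _ _ hoo, inv_mul_cancel, hA3 _ hoo]
    rwa [hgx y hy'] at h1
  have hXo : Xm oo = 1 := by
    unfold Xm oo
    ext i j
    fin_cases i <;> fin_cases j <;> simp
  have hkk : (k : Mat) * (k : Mat)ᴴ = 1 := by
    have h1 := (hA1 k oo hoo).2.2
    rw [hkoo, hXo, Matrix.mul_one] at h1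
    exact h1.symm
  have hconj : (gx x hx)⁻¹ * (h * D * h⁻¹) * gx x hx =
      k⁻¹ * ((gx y hy')⁻¹ * D * gx y hy') * k := by
    rw [hk]
    group
  have hmat : ((((gx x hx)⁻¹ * (h * D * h⁻¹) * gx x hx : SL) : Mat) - ε • (1 : Mat)) =
      ((k⁻¹ : SL) : Mat) * ((((gx y hy')⁻¹ * D * gx y hy' : SL) : Mat) - ε • (1 : Mat)) *
        (k : Mat) := by
    rw [hconj, Matrix.SpecialLinearGroup.coe_mul, Matrix.SpecialLinearGroup.coe_mul,
      Matrix.mul_sub, Matrix.sub_mul]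
    congr 1
    rw [Matrix.mul_smul, Matrix.smul_mul, Matrix.mul_one, ← Matrix.SpecialLinearGroup.coe_mul,
      inv_mul_cancel, Matrix.SpecialLinearGroup.coe_one]
  rw [hmat, hNNS.2.2.1 k _ hkk]
  exact hb y hy' hT'

end Pool.Agent.Helper41.QT
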